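import Pool.Agent.Q80.KT.Stm

/-!
# Counting the labellings of a tree by words
-/

open Finset MeasureTheory Filter Topology
open scoped Classical ENNReal NNReal

noncomputable section

namespace Q5.KT.COUNT

open Pool.Agent.Q80.KT

variable {k : ℕ} {F : SimpleGraph (Fin k)} {u : Fin k}

lemma par_ex (hF : F.IsTree) {b : Fin k} (hb : b ≠ u) : ∃ a, F.Adj a b ∧ F.dist u b = F.dist u a + 1 := by
  obtain ⟨p, hp, hp'⟩ := hF.connected.exists_path_of_dist b u
  cases p with
  | nil => exact absurd rfl hb
  | @cons _ v _ h q =>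
    refine ⟨v, h.symm, ?_⟩
    have h1 := SimpleGraph.dist_le q
    have h2 : q.length + 1 = F.dist b u := by simpa using hp'
    have h4 : F.dist v u = F.dist u v := SimpleGraph.dist_comm
    have h5 : F.dist b u = F.dist u b := SimpleGraph.dist_comm
    rcases hF.dist_eq_dist_add_one_of_adj u h with h3 | h3 <;> omega

lemma par_uniq (hF : F.IsTree) {a a' b : Fin k} (h : F.Adj a b) (h' : F.Adj a' b)
    (d : F.dist u b = F.dist u a + 1) (d' : F.dist u b = F.dist u a' + 1) : a = a' := by
  obtain ⟨q, hq⟩ := hF.connected.exists_walk_length_eq_dist u a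
  obtain ⟨q', hq'⟩ := hF.connected.exists_walk_length_eq_dist u a'
  have e1 : (q.concat h).IsPath :=
    SimpleGraph.Walk.isPath_of_length_eq_dist _ (by rw [SimpleGraph.Walk.length_concat, hq, d])
  have e2 : (q'.concat h').IsPath :=
    SimpleGraph.Walk.isPath_of_length_eq_dist _ (by rw [SimpleGraph.Walk.length_concat, hq', d'])
  have e3 := (hF.isAcyclic.subsingleton_path u b).elim ⟨_, e1⟩ ⟨_, e2⟩
  have e4 : q.concat h = q'.concat h' := congrArg Subtype.val e3
  have e5 := congrArg SimpleGraph.Walk.penultimate e4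
  simpa using e5

/-- the children -/
def ch (F : SimpleGraph (Fin k)) (u a : Fin k) : Finset (Fin k) :=
  univ.filter fun b => F.Adj a b ∧ F.dist u b = F.dist u a + 1

lemma mem_ch {a b : Fin k} : b ∈ ch F u a ↔ F.Adj a b ∧ F.dist u b = F.dist u a + 1 := by
  unfold ch
  rw [mem_filter]
  exact ⟨fun h => h.2, fun h => ⟨mem_univ _, h⟩⟩

lemma card_ch (a : Fin k) : (ch F u a).card = nch F u a := rfl

/-- families of numberings of the children -/
abbrev Om (F : SimpleGraph (Fin k)) (u : Fin k) : Type := ∀ a : Fin k, ↥(ch F u a) ≃ Fin (nch F u a)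

/-- the parent -/
def par (F : SimpleGraph (Fin k)) (u b : Fin k) : Fin k :=
  if h : ∃ a, F.Adj a b ∧ F.dist u b = F.dist u a + 1 then h.choose else u

lemma par_spec (hF : F.IsTree) {b : Fin k} (hb : b ≠ u) :
    F.Adj (par F u b) b ∧ F.dist u b = F.dist u (par F u b) + 1 := by
  unfold par
  rw [dif_pos (par_ex hF hb)]
  exact (par_ex hF hb).choose_spec

lemma mem_ch_iff (hF : F.IsTree) {a b : Fin k} : b ∈ ch F u a ↔ b ≠ u ∧ par F u b = a := by
  rw [mem_ch]
  constructor
  · rintro ⟨h1, h2⟩
    have hb : b ≠ u := by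
      rintro rfl
      rw [SimpleGraph.dist_self] at h2
      omega
    refine ⟨hb, ?_⟩
    obtain ⟨h3, h4⟩ := par_spec hF hb
    exact par_uniq hF h3 h1 h4 h2
  · rintro ⟨hb, rfl⟩
    exact par_spec hF hb

/-- the number of a vertex among its siblings -/
def idx (ω : Om F u) (b : Fin k) : ℕ :=
  if h : b ∈ ch F u (par F u b) then (ω (par F u b) ⟨b, h⟩ : ℕ) else 0

lemma idx_eq (hF : F.IsTree) (ω : Om F u) {a b : Fin k} (h : b ∈ ch F u a) : idx ω b = (ω a ⟨b, h⟩ : ℕ) := by
  obtain ⟨hb, rfl⟩ := (mem_ch_iff hF).1 h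
  unfold idx
  rw [dif_pos h]

/-- words with fuel -/
def wd (ω : Om F u) : ℕ → Fin k → List ℕ
  | 0, _ => []
  | t + 1, b => idx ω b :: wd ω t (par F u b)

/-- the word of a vertex -/
def W (ω : Om F u) (b : Fin k) : List ℕ := wd ω (F.dist u b) b

lemma W_root (ω : Om F u) : W ω u = [] := by
  unfold W
  rw [SimpleGraph.dist_self]
  rfl

lemma W_cons (hF : F.IsTree) (ω : Om F u) {b : Fin k} (hb : b ≠ u) : W ω b = idx ω b :: W ω (par F u b) := by
  unfold W
  rw [(par_spec hF hb).2]
  rfl

lemma wd_len (ω : Om F u) (t : ℕ) : ∀ b, (wd ω t b).length = t := by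
  induction t with
  | zero => intro b; rfl
  | succ t ih => intro b; unfold wd; rw [List.length_cons, ih]

lemma W_len (ω : Om F u) (b : Fin k) : (W ω b).length = F.dist u b := wd_len ω _ b

lemma dist_zero (hF : F.IsTree) {b : Fin k} (h : F.dist u b = 0) : b = u :=
  ((hF.connected.dist_eq_zero_iff).1 h).symm

lemma W_inj (hF : F.IsTree) (ω : Om F u) : Function.Injective (W ω) := by
  have key : ∀ t a b, F.dist u a = t → W ω a = W ω b → a = b := by
    intro t
    induction t with
    | zero =>
      intro a b ha h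
      have h1 := congrArg List.length h
      rw [W_len, W_len] at h1
      have h2 : b = u := dist_zero hF (by omega)
      rw [dist_zero hF ha, h2]
    | succ t ih =>
      intro a b ha h
      have h1 := congrArg List.length h
      rw [W_len, W_len] at h1
      have hau : a ≠ u := by
        rintro rfl
        rw [SimpleGraph.dist_self] at ha
        omega
      have hbu : b ≠ u := by
        rintro rfl
        rw [SimpleGraph.dist_self] at h1
        omega
      rw [W_cons hF ω hau, W_cons hF ω hbu] at h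
      rw [List.cons.injEq] at h
      have h2 := par_spec hF hau
      have h3 := ih _ _ (by omega) h.2
      have ma : a ∈ ch F u (par F u a) := (mem_ch_iff hF).2 ⟨hau, rfl⟩
      have mb : b ∈ ch F u (par F u a) := (mem_ch_iff hF).2 ⟨hbu, h3.symm⟩
      have h4 := h.1
      rw [idx_eq hF ω ma, idx_eq hF ω mb] at h4
      have h5 := (ω (par F u a)).injective (Fin.ext h4)
      exact congrArg Subtype.val h5
  intro a b h
  exact key _ a b rfl h

lemma W_lab (hF : F.IsTree) (ω : Om F u) : Lab F u (W ω) := by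
  refine ⟨W_root ω, W_inj hF ω, ?_, ?_, ?_⟩
  · have one : ∀ a b, (∃ i, W ω a = i :: W ω b) ↔ (a ≠ u ∧ par F u a = b) := by
      intro a b
      constructor
      · rintro ⟨i, hi⟩
        have hau : a ≠ u := by
          rintro rfl
          rw [W_root] at hi
          exact absurd hi (by simp)
        refine ⟨hau, ?_⟩
        rw [W_cons hF ω hau, List.cons.injEq] at hi
        exact W_inj hF ω hi.2
      · rintro ⟨hau, rfl⟩
        exact ⟨_, W_cons hF ω hau⟩
    intro a b
    rw [one, one]
    constructor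
    · intro h
      rcases hF.dist_eq_dist_add_one_of_adj u h with h3 | h3
      · left
        exact (mem_ch_iff hF).1 (mem_ch.2 ⟨h.symm, h3⟩)
      · right
        exact (mem_ch_iff hF).1 (mem_ch.2 ⟨h, h3⟩)
    · rintro (⟨h1, rfl⟩ | ⟨h1, rfl⟩)
      · exact (par_spec hF h1).1.symm
      · exact (par_spec hF h1).1
  · intro a ha
    exact ⟨par F u a, idx ω a, (par_spec hF ha).1.symm, W_cons hF ω ha⟩
  · rintro a i j hij ⟨b, hb⟩
    have hbu : b ≠ u := by
      rintro rfl
      rw [W_root] at hb
      exact absurd hb (by simp)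
    rw [W_cons hF ω hbu, List.cons.injEq] at hb
    have h1 : par F u b = a := W_inj hF ω hb.2
    have mb : b ∈ ch F u a := (mem_ch_iff hF).2 ⟨hbu, h1⟩
    have h2 := hb.1
    rw [idx_eq hF ω mb] at h2
    have hi : i < nch F u a := by
      have := (ω a ⟨b, mb⟩).2
      omega
    have h3 := ((ω a).symm ⟨i, hi⟩).2
    refine ⟨((ω a).symm ⟨i, hi⟩ : Fin k), ?_⟩
    obtain ⟨h4, h5⟩ := (mem_ch_iff hF).1 h3
    rw [W_cons hF ω h4, h5, idx_eq hF ω h3]
    have h6 : (⟨((ω a).symm ⟨i, hi⟩ : Fin k), h3⟩ : ↥(ch F u a)) = (ω a).symm ⟨i, hi⟩ := rfl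
    rw [h6, Equiv.apply_symm_apply]

lemma W_injω (hF : F.IsTree) : Function.Injective (fun ω : Om F u => W ω) := by
  intro ω ω' h
  have h : W ω = W ω' := h
  funext a
  apply Equiv.ext
  rintro ⟨c, hc⟩
  obtain ⟨h1, h2⟩ := (mem_ch_iff hF).1 hc
  have h3 := congrFun h c
  rw [W_cons hF ω h1, W_cons hF ω' h1, List.cons.injEq] at h3
  have h4 := h3.1
  rw [idx_eq hF ω hc, idx_eq hF ω' hc] at h4
  exact Fin.ext h4

lemma down_range (S : Finset ℕ) (h : ∀ i j, i < j → j ∈ S → i ∈ S) : S = range S.card := by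
  apply Finset.eq_of_subset_of_card_le
  · intro x hx
    rw [mem_range]
    have h1 : range (x + 1) ⊆ S := by
      intro y hy
      rw [mem_range] at hy
      rcases Nat.lt_or_ge y x with h2 | h2
      · exact h y x h2 hx
      · have : y = x := by omega
        rw [this]; exact hx
    have h2 := card_le_card h1
    rw [card_range] at h2
    omega
  · rw [card_range]

lemma W_surj (hF : F.IsTree) {φ : Fin k → List ℕ} (hφ : Lab F u φ) : ∃ ω : Om F u, W ω = φ := by
  obtain ⟨h0, hinj, hadj, hpar, hfill⟩ := hφ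
  have up : ∀ n a, (φ a).length = n → F.dist u a ≤ n := by
    intro n
    induction n with
    | zero =>
      intro a ha
      have : a = u := hinj (by rw [h0]; exact List.length_eq_zero_iff.1 ha)
      rw [this, SimpleGraph.dist_self]
    | succ n ih =>
      intro a ha
      have hau : a ≠ u := by
        rintro rfl
        rw [h0] at ha
        simp at ha
      obtain ⟨b, i, hb, hi⟩ := hpar a hau
      rw [hi, List.length_cons] at ha
      have h1 := ih b (by omega)
      rcases hF.dist_eq_dist_add_one_of_adj u hb with h3 | h3 <;> omega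
  have step : ∀ a b, F.Adj a b → (φ b).length ≤ (φ a).length + 1 := by
    intro a b h
    rcases (hadj a b).1 h with ⟨i, hi⟩ | ⟨i, hi⟩
    · rw [hi, List.length_cons]; omega
    · rw [hi, List.length_cons]
  have low : ∀ n a, F.dist u a = n → (φ a).length ≤ n := by
    intro n
    induction n with
    | zero =>
      intro a ha
      rw [dist_zero hF ha, h0]
      simp
    | succ n ih =>
      intro a ha
      have hau : a ≠ u := by
        rintro rfl
        rw [SimpleGraph.dist_self] at ha
        omega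
      obtain ⟨h1, h2⟩ := par_spec hF hau
      have h3 := ih (par F u a) (by omega)
      have h4 := step _ _ h1
      omega
  have len : ∀ a, (φ a).length = F.dist u a := fun a => le_antisymm (low _ a rfl) (up _ a rfl)
  have isch : ∀ a b i, φ b = i :: φ a → b ∈ ch F u a := by
    intro a b i h
    rw [mem_ch]
    refine ⟨(hadj a b).2 (Or.inr ⟨i, h⟩), ?_⟩
    rw [← len, ← len, h, List.length_cons]
  have hcons : ∀ a b, b ∈ ch F u a → φ b = (φ b).headI :: φ a := by
    intro a b h
    obtain ⟨h1, h2⟩ := (mem_ch_iff hF).1 h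
    obtain ⟨c, i, hc, hi⟩ := hpar b h1
    obtain ⟨h3, h4⟩ := (mem_ch_iff hF).1 (isch c b i hi)
    have : c = a := by rw [← h4, h2]
    rw [this] at hi
    rw [hi]
    rfl
  -- the numberings
  have ex : ∀ a, ∃ e : ↥(ch F u a) ≃ Fin (nch F u a), ∀ c : ↥(ch F u a), (e c : ℕ) = (φ c).headI := by
    intro a
    set S : Finset ℕ := (ch F u a).image (fun c => (φ c).headI) with hS
    have inj : Set.InjOn (fun c => (φ c).headI) (ch F u a : Set (Fin k)) := by
      intro c hc c' hc' h
      apply hinj
      rw [hcons a c hc, hcons a c' hc']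
      exact congrArg (· :: φ a) h
    have cS : S.card = nch F u a := by
      rw [hS, card_image_of_injOn inj]
      rfl
    have hdown : S = range (nch F u a) := by
      rw [← cS]
      apply down_range
      intro i j hij hj
      rw [hS, mem_image] at hj ⊢
      obtain ⟨c, hc, rfl⟩ := hj
      obtain ⟨b, hb⟩ := hfill a i _ hij ⟨c, hcons a c hc⟩
      refine ⟨b, isch a b i hb, ?_⟩
      rw [hb]
      rfl
    have lt : ∀ c : ↥(ch F u a), (φ c).headI < nch F u a := by
      intro c
      have : (φ c).headI ∈ S := mem_image.2 ⟨c, c.2, rfl⟩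
      rw [hdown, mem_range] at this
      exact this
    let f : ↥(ch F u a) → Fin (nch F u a) := fun c => ⟨(φ c).headI, lt c⟩
    have hf : Function.Bijective f := by
      constructor
      · intro c c' h
        have h1 : (φ c).headI = (φ c').headI := congrArg Fin.val h
        exact Subtype.ext (inj c.2 c'.2 h1)
      · intro i
        have : (i : ℕ) ∈ S := by
          rw [hdown, mem_range]
          exact i.2
        rw [hS, mem_image] at this
        obtain ⟨c, hc, h⟩ := this
        exact ⟨⟨c, hc⟩, Fin.ext h⟩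
    exact ⟨Equiv.ofBijective f hf, fun c => rfl⟩
  choose e he using ex
  refine ⟨e, ?_⟩
  have key : ∀ n a, F.dist u a = n → W e a = φ a := by
    intro n
    induction n with
    | zero =>
      intro a ha
      rw [dist_zero hF ha, h0, W_root]
    | succ n ih =>
      intro a ha
      have hau : a ≠ u := by
        rintro rfl
        rw [SimpleGraph.dist_self] at ha
        omega
      obtain ⟨h1, h2⟩ := par_spec hF hau
      have ma : a ∈ ch F u (par F u a) := (mem_ch_iff hF).2 ⟨hau, rfl⟩
      rw [W_cons hF e hau, ih (par F u a) (by omega), idx_eq hF e ma, he]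
      exact (hcons _ _ ma).symm
  funext a
  exact key _ a rfl

lemma W_congr (hF : F.IsTree) (ω ω' : Om F u) (t : ℕ) (h : ∀ a, F.dist u a < t → ω a = ω' a) :
    ∀ n c, F.dist u c = n → n ≤ t → W ω c = W ω' c := by
  intro n
  induction n with
  | zero =>
    intro c hc _
    rw [dist_zero hF hc, W_root, W_root]
  | succ n ih =>
    intro c hc hn
    have hcu : c ≠ u := by
      rintro rfl
      rw [SimpleGraph.dist_self] at hc
      omega
    obtain ⟨h1, h2⟩ := par_spec hF hcu
    have mc : c ∈ ch F u (par F u c) := (mem_ch_iff hF).2 ⟨hcu, rfl⟩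
    rw [W_cons hF ω hcu, W_cons hF ω' hcu, ih (par F u c) (by omega) (by omega), idx_eq hF ω mc, idx_eq hF ω' mc,
      h (par F u c) (by omega)]

/-- the word is zero -/
def zer (ω : Om F u) (a : Fin k) : Prop := ∀ i ∈ W ω a, i = 0

lemma zer_uniq (hF : F.IsTree) (ω : Om F u) {a b : Fin k} (ha : zer ω a) (hb : zer ω b)
    (h : F.dist u a = F.dist u b) : a = b := by
  apply W_inj hF ω
  rw [List.eq_replicate_of_mem ha, List.eq_replicate_of_mem hb, W_len, W_len, h]

lemma zer_root (ω : Om F u) : zer ω u := by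
  unfold zer
  rw [W_root]
  simp

lemma zer_cons (hF : F.IsTree) (ω : Om F u) {a b : Fin k} (h : b ∈ ch F u a) :
    zer ω b ↔ (ω a ⟨b, h⟩ : ℕ) = 0 ∧ zer ω a := by
  obtain ⟨h1, h2⟩ := (mem_ch_iff hF).1 h
  unfold zer
  rw [W_cons hF ω h1, h2, idx_eq hF ω h]
  simp

/-- the product up to level `t` -/
def Pt (ω : Om F u) (t : ℕ) : ℝ :=
  ∏ a ∈ univ.filter (fun a => F.dist u a < t), (if zer ω a then (nch F u a : ℝ) else 1)

lemma Pt_succ (ω : Om F u) (t : ℕ) : Pt ω (t + 1) = Pt ω t *
    ∏ a ∈ univ.filter (fun a => F.dist u a = t), (if zer ω a then (nch F u a : ℝ) else 1) := by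
  unfold Pt
  rw [← prod_union]
  · apply prod_congr _ (fun _ _ => rfl)
    ext a
    rw [mem_union, mem_filter, mem_filter, mem_filter]
    constructor
    · rintro ⟨h1, h2⟩
      rcases Nat.lt_or_ge (F.dist u a) t with h3 | h3
      · exact Or.inl ⟨h1, h3⟩
      · exact Or.inr ⟨h1, by omega⟩
    · rintro (⟨h1, h2⟩ | ⟨h1, h2⟩)
      · exact ⟨h1, by omega⟩
      · exact ⟨h1, by omega⟩
  · rw [disjoint_filter]
    intro a _ h1 h2
    omega

lemma level (hF : F.IsTree) (ω : Om F u) {a : Fin k} (ha : zer ω a) :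
    ∏ b ∈ univ.filter (fun b => F.dist u b = F.dist u a), (if zer ω b then (nch F u b : ℝ) else 1) = nch F u a := by
  rw [prod_eq_single_of_mem a (by simp)]
  · rw [if_pos ha]
  · intro b hb hne
    rw [mem_filter] at hb
    rw [if_neg]
    intro hz
    exact hne (zer_uniq hF ω hz ha hb.2)

lemma Pt_ex (hF : F.IsTree) (ω : Om F u) (t : ℕ) (h : Pt ω t ≠ 0) : ∃ b, F.dist u b = t ∧ zer ω b := by
  induction t with
  | zero => exact ⟨u, SimpleGraph.dist_self, zer_root ω⟩
  | succ t ih =>
    rw [Pt_succ] at h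
    obtain ⟨a, ha, hz⟩ := ih (left_ne_zero_of_mul h)
    have h2 := right_ne_zero_of_mul h
    rw [← ha, level hF ω hz] at h2
    have h3 : 0 < nch F u a := Nat.pos_of_ne_zero (by exact_mod_cast h2)
    have h4 := ((ω a).symm ⟨0, h3⟩).2
    refine ⟨((ω a).symm ⟨0, h3⟩ : Fin k), ?_, ?_⟩
    · rw [(mem_ch.1 h4).2, ha]
    · rw [zer_cons hF ω h4]
      refine ⟨?_, hz⟩
      have h6 : (⟨((ω a).symm ⟨0, h3⟩ : Fin k), h4⟩ : ↥(ch F u a)) = (ω a).symm ⟨0, h3⟩ := rfl
      rw [h6, Equiv.apply_symm_apply]

/-- all families of numberings -/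
def C (F : SimpleGraph (Fin k)) (u : Fin k) : ℝ := ∏ a : Fin k, ((nch F u a).factorial : ℝ)

lemma card_Om : (Fintype.card (Om F u) : ℝ) = C F u := by
  unfold C
  rw [Fintype.card_pi, Nat.cast_prod]
  apply prod_congr rfl
  intro a _
  have e : ↥(ch F u a) ≃ Fin (nch F u a) := Fintype.equivOfCardEq (by rw [Fintype.card_coe, Fintype.card_fin, card_ch])
  rw [Fintype.card_equiv e, Fintype.card_coe, card_ch]

/-- the modified family -/
def sw (a : Fin k) (i j : Fin (nch F u a)) (ω : Om F u) : Om F u :=
  Function.update ω a ((ω a).trans (Equiv.swap i j))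

lemma sw_sw (a : Fin k) (i j : Fin (nch F u a)) (ω : Om F u) : sw a i j (sw a i j ω) = ω := by
  unfold sw
  funext b
  by_cases h : b = a
  · subst h
    rw [Function.update_self, Function.update_self]
    ext c
    simp
  · rw [Function.update_of_ne h, Function.update_of_ne h]

lemma main (hF : F.IsTree) (t : ℕ) : ∀ b, F.dist u b = t →
    ∑ ω : Om F u, (if zer ω b then Pt ω t else 0) = C F u := by
  induction t with
  | zero =>
    intro b hb
    rw [dist_zero hF hb, ← card_Om, Finset.sum_congr rfl (g := fun _ => (1 : ℝ))]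
    · simp
    · intro ω _
      rw [if_pos (zer_root ω)]
      unfold Pt
      simp
  | succ t ih =>
    intro b hb
    have hbu : b ≠ u := by
      rintro rfl
      rw [SimpleGraph.dist_self] at hb
      omega
    set a := par F u b with ha
    have mb : b ∈ ch F u a := (mem_ch_iff hF).2 ⟨hbu, rfl⟩
    have hda : F.dist u a = t := by
      have := (mem_ch.1 mb).2
      omega
    have hpos : 0 < nch F u a := by
      rw [← card_ch]
      exact card_pos.2 ⟨b, mb⟩
    have h1 : ∀ ω : Om F u, (if zer ω b then Pt ω (t + 1) else 0) =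
        (if ω a ⟨b, mb⟩ = ⟨0, hpos⟩ then (if zer ω a then Pt ω t else 0) else 0) * (nch F u a : ℝ) := by
      intro ω
      by_cases hz : zer ω a
      · have h2 : zer ω b ↔ ω a ⟨b, mb⟩ = ⟨0, hpos⟩ := by
          rw [zer_cons hF ω mb, Fin.ext_iff]
          exact ⟨fun h => h.1, fun h => ⟨h, hz⟩⟩
        rw [if_pos hz, Pt_succ, ← hda, level hF ω hz]
        by_cases h3 : zer ω b
        · rw [if_pos h3, if_pos (h2.1 h3)]
        · rw [if_neg h3, if_neg (fun h => h3 (h2.2 h)), zero_mul]
      · rw [if_neg hz, if_neg (fun h => hz ((zer_cons hF ω mb).1 h).2)]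
        simp
    have h2 : ∀ i : Fin (nch F u a),
        ∑ ω : Om F u, (if ω a ⟨b, mb⟩ = ⟨0, hpos⟩ then (if zer ω a then Pt ω t else 0) else 0) =
        ∑ ω : Om F u, (if ω a ⟨b, mb⟩ = i then (if zer ω a then Pt ω t else 0) else 0) := by
      intro i
      have hW : ∀ ω : Om F u, ∀ c, F.dist u c ≤ t → W (sw a ⟨0, hpos⟩ i ω) c = W ω c := by
        intro ω c hc
        apply W_congr hF _ _ t _ _ c rfl hc
        intro a' ha'
        unfold sw
        rw [Function.update_of_ne]
        rintro rfl
        omega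
      have hz : ∀ ω : Om F u, ∀ c, F.dist u c ≤ t → (zer (sw a ⟨0, hpos⟩ i ω) c ↔ zer ω c) := by
        intro ω c hc
        unfold zer
        rw [hW ω c hc]
      have hP : ∀ ω : Om F u, Pt (sw a ⟨0, hpos⟩ i ω) t = Pt ω t := by
        intro ω
        unfold Pt
        apply prod_congr rfl
        intro c hc
        rw [mem_filter] at hc
        simp only [hz ω c hc.2.le]
      apply Finset.sum_bij' (fun ω _ => sw a ⟨0, hpos⟩ i ω) (fun ω _ => sw a ⟨0, hpos⟩ i ω)
      · intro ω _; exact mem_univ _
      · intro ω _; exact mem_univ _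
      · intro ω _; exact sw_sw a _ i ω
      · intro ω _; exact sw_sw a _ i ω
      · intro ω _
        have h4 : (sw a ⟨0, hpos⟩ i ω) a ⟨b, mb⟩ = i ↔ ω a ⟨b, mb⟩ = ⟨0, hpos⟩ := by
          unfold sw
          rw [Function.update_self, Equiv.trans_apply, Equiv.swap_apply_eq_iff, Equiv.swap_apply_right]
        simp only [h4, hz ω a hda.le, hP ω]
    rw [Finset.sum_congr rfl (fun ω _ => h1 ω), ← Finset.sum_mul]
    have h3 : ∑ i : Fin (nch F u a), ∑ ω : Om F u,
        (if ω a ⟨b, mb⟩ = i then (if zer ω a then Pt ω t else 0) else 0) = C F u := by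
      rw [Finset.sum_comm, ← ih a hda]
      apply Finset.sum_congr rfl
      intro ω _
      rw [Finset.sum_ite_eq, if_pos (mem_univ _)]
    rw [← h3, ← Finset.sum_congr rfl (fun i _ => h2 i), Finset.sum_const, card_univ, Fintype.card_fin, nsmul_eq_mul,
      mul_comm]

theorem t_COUNT : S_COUNT := by
  intro k F u r hF hr
  refine ⟨univ.image (fun ω : Om F u => W ω), ?_, ?_⟩
  · intro φ
    rw [mem_image]
    constructor
    · rintro ⟨ω, _, rfl⟩
      exact W_lab hF ω
    · intro h
      obtain ⟨ω, hω⟩ := W_surj hF h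
      exact ⟨ω, mem_univ _, hω⟩
  · rw [Finset.sum_image (fun ω _ ω' _ h => W_injω hF h)]
    have h1 : ∀ ω : Om F u, (∏ a ∈ univ.filter (fun a => F.dist u a < r),
        (if (∀ i ∈ W ω a, i = 0) then (nch F u a : ℝ) else 1)) =
        ∑ b ∈ univ.filter (fun b => F.dist u b = r), (if zer ω b then Pt ω r else 0) := by
      intro ω
      have h0 : (∏ a ∈ univ.filter (fun a => F.dist u a < r),
          (if (∀ i ∈ W ω a, i = 0) then (nch F u a : ℝ) else 1)) = Pt ω r := by
        unfold Pt
        apply prod_congr rfl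
        intro a _
        by_cases hz : zer ω a
        · have hz' : ∀ i ∈ W ω a, i = 0 := hz
          rw [if_pos hz, if_pos hz']
        · have hz' : ¬ ∀ i ∈ W ω a, i = 0 := hz
          rw [if_neg hz, if_neg hz']
      rw [h0]
      by_cases hP : Pt ω r = 0
      · rw [hP]
        symm
        apply Finset.sum_eq_zero
        intro b _
        split_ifs <;> rfl
      · obtain ⟨b, hb, hz⟩ := Pt_ex hF ω r hP
        rw [Finset.sum_eq_single_of_mem b (by rw [mem_filter]; exact ⟨mem_univ _, hb⟩)]
        · rw [if_pos hz]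
        · intro c hc hne
          rw [mem_filter] at hc
          rw [if_neg]
          intro hzc
          exact hne (zer_uniq hF ω hzc hz (by rw [hc.2, hb]))
    rw [Finset.sum_congr rfl (fun ω _ => h1 ω), Finset.sum_comm]
    rw [Finset.sum_congr rfl (fun b hb => main hF r b (mem_filter.1 hb).2), Finset.sum_const, nsmul_eq_mul]
    congr 1
    unfold C
    symm
    apply Finset.prod_subset (filter_subset _ _)
    intro a _ ha
    rw [mem_filter] at ha
    have h2 : F.dist u a = r := by
      have h3 := hr a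
      by_contra h4
      exact ha ⟨mem_univ _, by omega⟩
    have h5 : nch F u a = 0 := by
      rw [← card_ch, card_eq_zero]
      by_contra h6
      obtain ⟨b, hb⟩ := nonempty_iff_ne_empty.2 h6
      have h7 := (mem_ch.1 hb).2
      have h8 := hr b
      omega
    rw [h5]
    simp

end Q5.KT.COUNT
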